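import Pool.Agent.K9h38.CF.Main
import Pool.Agent.K9h38.CF.Rank

/-!
# The two rationality conjectures agree for all cubic fourfolds with at least five independent classes

Let `X` be a smooth cubic fourfold and `ρ` the rank of the group of Hodge classes in `H^4(X, ℤ)`.
Galkin and Shinder conjecture that `X` is rational if and only if the variety of lines `F(X)` is
birational to `S^[2]` for a K3 surface `S`; Hassett and Kuznetsov conjecture that `X` is rational if
and only if `X` has an associated K3 surface. By Addington the first condition implies the second, and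
for `ρ = 2` (for instance for a very general `X` in `C_74`) the second does not imply the first.

We prove that the two conditions are equivalent for all `X` with `ρ ≥ 5`, so that the two
conjectures are the same for these `X`. The conditions can be tested at one prime number at a time:
they hold if and only if for every prime `p` some Hodge class satisfies the condition of
Hassett at `p`. This is so for all `X` with `ρ ≥ 13`: for these `X` the variety of
lines is birational to `S^[2]` for a K3 surface `S`.
For `ρ = 4` the same is proved for the `X` with a Hodge class whose discriminant is twice a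
square (so that `F(X)` has a rational Lagrangian fibration); for `ρ ≥ 5` such a class
exists by the theorem of Meyer.

The known facts which are used are collected in `H4.IsCohomology`; the theorem of Addington which
translates `F(X) ~ S^[2]` is used in the definition `HilbertSquare`.

Idea of the proof. Let `f` be one half of the discriminant, a quadratic form on the Hodge classes, with
the polar form `b`. One has to find a class `v` with `f v = j² + j + 1`. Let `f v₁ = k²`. With
`v = x v₁ + u` and `j = k x - r` this becomes `x (b v₁ u + k (2 r - 1)) = r² - r + 1 - f u`, so that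
one has to find `u` and `r` such that the first factor divides the right hand side. One solves
this at the primes which divide `2 k`, glues the solutions, makes the first factor a product of such
primes and one large prime `ℓ` (Dirichlet), and changes `u` by classes orthogonal to `v₁` to get
divisibility by `ℓ`, since two such classes are available if `ρ ≥ 4`.
-/

set_option autoImplicit false

namespace Pool.Agent.Results.MP_4d0966_ag.EquivalentLargeRank

open Pool.Agent.Y95.Q

/-- `X` is in the Hassett divisor `C_d`: there is a Hodge class `v` such that `h` and `v` span a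
saturated group of discriminant `d`. -/
def InDivisor {X : CubicFourfold} (H : H4 X) (d : ℤ) : Prop :=
  ∃ v, H.IsHodge v ∧ H.Saturated v ∧ H.disc v = d

/-- `X` is in a Hassett divisor `C_d`, where `d = (2 n ^ 2 + 2 n + 2) / a ^ 2` with integers `a` and `n`.
By a theorem of Addington this means that the variety of lines `F(X)` is birational to the Hilbert
square `S^[2]` of some K3 surface `S`. -/
def HilbertSquare {X : CubicFourfold} (H : H4 X) : Prop :=
  ∃ d, (∃ a n : ℤ, a ^ 2 * d = 2 * n ^ 2 + 2 * n + 2) ∧ InDivisor H d

/-- `X` is in a Hassett divisor `C_d` with an admissible `d`. By theorems of Hassett and of Addington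
and Thomas this means that `X` has an associated K3 surface, in the sense of Hassett or of
Kuznetsov. -/
def AssociatedK3 {X : CubicFourfold} (H : H4 X) : Prop := ∃ d, Admissible d ∧ InDivisor H d

/-- The number `d` satisfies Hassett's condition at the prime number `p`: it is not divisible by `4`
if `p = 2`, not divisible by `3` or congruent to `6` modulo `18` if `p = 3`, and not divisible by `p`
if `p` is odd and congruent to `2` modulo `3`. -/
def AdmissibleAt (p : ℕ) (d : ℤ) : Prop :=
  (p = 2 → ¬ 4 ∣ d) ∧ (p = 3 → ¬ 3 ∣ d ∨ d % 18 = 6) ∧ (p ≠ 2 → p % 3 = 2 → ¬ (p : ℤ) ∣ d)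

/-- The rank of the group of Hodge classes is at least five, or it is at least four and there is a
Hodge class whose discriminant is twice the square of a nonzero integer. -/
def LargeRank {X : CubicFourfold} (H : H4 X) : Prop :=
  5 ≤ H.rank ∨ (4 ≤ H.rank ∧ ∃ v, H.IsHodge v ∧ ∃ k : ℤ, k ≠ 0 ∧ H.disc v = 2 * k ^ 2)

/-- **The conditions of Galkin and Shinder and of Hassett and Kuznetsov are equivalent, and can be
tested locally, for all cubic fourfolds of rank at least five.** -/
theorem result {X : CubicFourfold} {H : H4 X} (hH : H.IsCohomology) (hr : LargeRank H) :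
    (HilbertSquare H ↔ AssociatedK3 H) ∧
    (HilbertSquare H ↔ ∀ p : ℕ, p.Prime → ∃ v, H.IsHodge v ∧ AdmissibleAt p (H.disc v)) ∧
    (13 ≤ H.rank → HilbertSquare H) := by
  have hK : AssociatedK3 H ↔ H.HasK3 := by
    constructor
    · rintro ⟨d, hd, v, hv, hs, rfl⟩
      exact ⟨v, hv, hs, hd⟩
    · rintro ⟨v, hv, hs, hd⟩
      exact ⟨_, hd, v, hv, hs, rfl⟩
  have h1 : HilbertSquare H → H.HasK3 := by
    rintro ⟨d, ⟨a, n, h⟩, v, hv, hs, rfl⟩
    exact Pool.Agent.K9h38.CF.hasK3_of_addington hH hv hs h
  have h2 : (∀ p : ℕ, p.Prime → ∃ v, H.IsHodge v ∧ AdmissibleAt p (H.disc v)) →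
      HilbertSquare H := by
    intro hloc
    obtain ⟨h4, v, hv, k, hk, hd⟩ : 4 ≤ Module.finrank ℤ H.hodge ∧
        ∃ v, H.IsHodge v ∧ ∃ k : ℤ, k ≠ 0 ∧ H.disc v = 2 * k ^ 2 := by
      rcases hr with hr | ⟨hr, h⟩
      · rw [H.rank_eq] at hr
        obtain ⟨v, k, hk, hv, hd⟩ := Pool.Agent.K9h38.CF.exists_square hH hr
        exact ⟨by omega, v, hv, k, hk, hd⟩
      · rw [H.rank_eq] at hr
        exact ⟨hr, h⟩
    obtain ⟨w, n, hw, hwn⟩ := Pool.Agent.K9h38.CF.value_of_local hH h4 hv hk hd
      fun p hp _ _ => hloc p hp
    exact Pool.Agent.K9h38.CF.sat_of_value hH hw hwn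
  have h3 : H.HasK3 → ∀ p : ℕ, p.Prime → ∃ v, H.IsHodge v ∧ AdmissibleAt p (H.disc v) :=
    fun h => ((Pool.Agent.N801.CF.hasK3_iff hH).1 h).2
  refine ⟨⟨fun h => hK.2 (h1 h), fun h => h2 (h3 (hK.1 h))⟩, ⟨fun h => h3 (h1 h), h2⟩, ?_⟩
  intro h13
  rw [H.rank_eq] at h13
  exact h2 fun p hp => Pool.Agent.K9h38.CF.local_of_rank hH h13 hp

end Pool.Agent.Results.MP_4d0966_ag.EquivalentLargeRank
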