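import Pool.Agent.K9h95.RE.Geo

/-!
# The two rationality conjectures and cubic fourfolds with three independent Hodge classes

Let `X` be a smooth cubic fourfold and `ρ` the rank of the group `A(X)` of Hodge classes in `H^4(X, ℤ)`.
Galkin and Shinder conjecture that `X` is rational if and only if the variety of lines `F(X)` is
birational to `S^[2]` for a K3 surface `S`; Hassett and Kuznetsov conjecture that `X` is rational if
and only if `X` has an associated K3 surface. By Addington the first condition implies the second. For
`ρ = 2` the second does not imply the first (for instance for a very general `X` in `C_74` or in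
`C_98`), and for `ρ ≥ 5` the two conditions are equivalent (`MP_4d0966_ag.EquivalentLargeRank` of this
team; for `ρ = 4` if there is a class whose discriminant is twice a square).

Here the case `ρ = 3` is considered, for the `X` with a Hodge class `v` of discriminant
`disc v = 2 k² ≠ 0` (so that `F(X)` has a rational Lagrangian fibration; this is a countable union of
families of codimension two in the moduli space, for instance all `X` with `ρ = 3` in `C_{2 k²}`).
Suppose that `A(X)` is not exceptional, that is: its discriminant is not of the form `s n²`, where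
`s > 1` is a squarefree number whose prime factors are all congruent to `1` modulo `12` and which divides
the discriminants of all Hodge classes. (So the discriminant of `A(X)` may be a square, or be divisible
to an odd power by a prime number `p` which is not `1` modulo `12` or does not divide all the
discriminants of the Hodge classes.) For the discriminant of `A(X)` one can take the determinant
`gram H u w ≠ 0` of the intersection matrix of `h`, `u`, `w` for any two Hodge classes `u`, `w`: it is the
discriminant of `A(X)` times a square. Then

1. the conditions of Galkin and Shinder and of Hassett and Kuznetsov are equivalent;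
2. they hold if and only if for every prime number `p` dividing `2 k`, `p` not `1` modulo `3`, some Hodge
   class satisfies the condition of Hassett at `p`;
3. they hold if every prime factor of `k` is congruent to `1` modulo `3`; in this case the very general
   `X` in `C_{2 k²}` has an associated K3 surface, but for instance for `k = 7` (`C_98`) the variety of
   lines of the very general `X` is not birational to `S^[2]`.

The exception is necessary: by `MP_4d0966_ag.RankThreeFails` all the three statements are false for
`disc (x α + y β) / 2 = 13 (13 x² + 3 y²)` (here `k = 13`, and the discriminant of `A(X)` is `4 · 13³`), and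
more generally for `s (s k² x² + 3 m² y²)`, for instance if `s` is a prime number congruent to `1` modulo
`12` such that `-3` is not a fourth power modulo `s`, and `k` and `m` are coprime.

The known facts which are used are collected in `H4.IsCohomology`; the theorem of Addington which
translates `F(X) ~ S^[2]` is used in the definition `HilbertSquare`.

Idea of the proof. Let `f` be one half of the discriminant, a quadratic form on `A(X) / h` of rank two,
with the polar form `b`, and let `y` be a Hodge class orthogonal to `h` and `v`. One has to find a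
class with `f = j² + j + 1`. With `x v + u` and `j = k x - r` this becomes
`x N = r² - r + 1 - f u`, where `N = b v u + k (2 r - 1)`. One solves this at the primes which divide `2 k`,
glues the solutions, and makes `N` a product `P` of such primes times a large prime `ℓ` (Dirichlet);
`u` can be changed by multiples of `y`. The divisibility by `ℓ` is equivalent to
`b(u, y)² ≡ 3 f(y)` modulo `ℓ`, which can be achieved if `3 f(y)` is a square modulo `ℓ`; up to squares
`3 f(y)` is the discriminant of `A(X)`. If it is not a square this is a second condition on `ℓ`, by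
quadratic reciprocity a condition on `ℓ` modulo `12 f(y)`. The class of `ℓ` is that of `N / P`, and one
needs two choices of the solutions for which the characters of `N / P` are different. If `q` divides
`3 f(y)` to an odd power, and some value `ε` of `f` is not divisible by `q`, then these are the two
solutions `(u, r)` and `(-u, r)` for `q = 2` and for `q = 2 mod 3`: as `4 k² f(u) ≡ b(v, u)²` modulo a high
power of `q`, the product of the two values of `N` is `-3 k²` up to small terms, and `-3` is not a square.
For `q = 1 mod 3` the equation `4 ε x² - W² = 3` has solutions for which the class of `N` modulo `q` is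
arbitrary; for `q = 3` and if `q` does not divide `2 k` there is still more choice. If `q = 7 mod 12` divides
all values of `f` then the two signs of `r - 1/2`, a square root of `-3/4`, give values of `N` with the
quotient `-1`, not a square.
-/

set_option autoImplicit false

namespace Pool.Agent.Results.MP_4d0966_ag.EquivalentRankThreeSharp

open Pool.Agent.Y95.Q

/-- `X` is in the Hassett divisor `C_d`: there is a Hodge class `v` such that `h` and `v` span a
saturated group of discriminant `d`. -/
def InDivisor {X : CubicFourfold} (H : H4 X) (d : ℤ) : Prop :=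
  ∃ v, H.IsHodge v ∧ H.Saturated v ∧ H.disc v = d

/-- `X` is in a Hassett divisor `C_d`, where `d = (2 n ^ 2 + 2 n + 2) / a ^ 2` with integers `a` and `n`.
By a theorem of Addington this means that the variety of lines `F(X)` is birational to the Hilbert
square `S^[2]` of some K3 surface `S`. -/
def HilbertSquare {X : CubicFourfold} (H : H4 X) : Prop :=
  ∃ d, (∃ a n : ℤ, a ^ 2 * d = 2 * n ^ 2 + 2 * n + 2) ∧ InDivisor H d

/-- `X` is in a Hassett divisor `C_d` with an admissible `d`. By theorems of Hassett and of Addington
and Thomas this means that `X` has an associated K3 surface, in the sense of Hassett or of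
Kuznetsov. -/
def AssociatedK3 {X : CubicFourfold} (H : H4 X) : Prop := ∃ d, Admissible d ∧ InDivisor H d

/-- The number `d` satisfies Hassett's condition at the prime number `p`: it is not divisible by `4`
if `p = 2`, not divisible by `3` or congruent to `6` modulo `18` if `p = 3`, and not divisible by `p`
if `p` is odd and congruent to `2` modulo `3`. -/
def AdmissibleAt (p : ℕ) (d : ℤ) : Prop :=
  (p = 2 → ¬ 4 ∣ d) ∧ (p = 3 → ¬ 3 ∣ d ∨ d % 18 = 6) ∧ (p ≠ 2 → p % 3 = 2 → ¬ (p : ℤ) ∣ d)

/-- The determinant of the intersection matrix of the classes `h`, `u`, `w`. -/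
def gram {X : CubicFourfold} (H : H4 X) (u w : Fin 23 → ℤ) : ℤ :=
  Matrix.det !![H.ip H.h H.h, H.ip H.h u, H.ip H.h w; H.ip u H.h, H.ip u u, H.ip u w;
    H.ip w H.h, H.ip w u, H.ip w w]

/-- The determinant of the intersection matrix of `h`, `u`, `w` is `s n²`, where `s > 1` is squarefree,
all its prime factors are congruent to `1` modulo `12`, and `s` divides the discriminant of every Hodge
class. -/
def Exceptional {X : CubicFourfold} (H : H4 X) (u w : Fin 23 → ℤ) : Prop :=
  ∃ s n : ℤ, 1 < s ∧ Squarefree s ∧ gram H u w = s * n ^ 2 ∧
    (∀ p : ℕ, p.Prime → (p : ℤ) ∣ s → p % 12 = 1) ∧ ∀ z, H.IsHodge z → s ∣ H.disc z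

/-- **The conditions of Galkin and Shinder and of Hassett and Kuznetsov are equivalent, and can be
tested locally, for the cubic fourfolds of rank three with a class of discriminant `2 k²`, except if
the discriminant of the lattice of the Hodge classes is `s n²` with a squarefree `s > 1` whose prime
factors are `1` modulo `12` and which divides the discriminants of all Hodge classes.** -/
theorem result {X : CubicFourfold} {H : H4 X} (hH : H.IsCohomology) (hr : H.rank = 3)
    {v : Fin 23 → ℤ} (hv : H.IsHodge v) {k : ℤ} (hk : k ≠ 0) (hd : H.disc v = 2 * k ^ 2)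
    {u w : Fin 23 → ℤ} (hu : H.IsHodge u) (hw : H.IsHodge w) (hG0 : gram H u w ≠ 0)
    (hG : ¬ Exceptional H u w) :
    (HilbertSquare H ↔ AssociatedK3 H) ∧
    (HilbertSquare H ↔ ∀ p : ℕ, p.Prime → (p : ℤ) ∣ 2 * k → p % 3 ≠ 1 →
      ∃ v, H.IsHodge v ∧ AdmissibleAt p (H.disc v)) ∧
    ((∀ p : ℕ, p.Prime → (p : ℤ) ∣ k → p % 3 = 1) → HilbertSquare H) := by
  have hK : AssociatedK3 H ↔ H.HasK3 := by
    constructor
    · rintro ⟨d, hd, v, hv, hs, rfl⟩
      exact ⟨v, hv, hs, hd⟩
    · rintro ⟨v, hv, hs, hd⟩
      exact ⟨_, hd, v, hv, hs, rfl⟩
  have h1 : HilbertSquare H → H.HasK3 := by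
    rintro ⟨d, ⟨a, n, h⟩, v, hv, hs, rfl⟩
    exact Pool.Agent.K9h36.RT.hasK3_of_addington hH hv hs h
  have hG' : ∀ s n : ℤ, 1 < s → Squarefree s → Pool.Agent.K9h36.RT.gram H u w = s * n ^ 2 →
      ∃ p : ℕ, p.Prime ∧ (p : ℤ) ∣ s ∧
        (p % 12 ≠ 1 ∨ ∃ z, H.IsHodge z ∧ ¬ (p : ℤ) ∣ H.disc z) := by
    intro s n hs hsf hsn
    by_contra hcon
    push Not at hcon
    refine hG ⟨s, n, hs, hsf, hsn, fun p hp hps => (hcon p hp hps).1, fun z hz => ?_⟩
    have h5 : Squarefree s.natAbs := Int.squarefree_natAbs.2 hsf
    have h6 : s.natAbs ∣ (H.disc z).natAbs := by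
      rw [← Nat.prod_primeFactors_of_squarefree h5]
      refine Finset.prod_primes_dvd _ (fun p hp => (Nat.prime_of_mem_primeFactors hp).prime)
        fun p hp => ?_
      have hp' := Nat.prime_of_mem_primeFactors hp
      have h7 : (p : ℤ) ∣ s := Int.natCast_dvd.2 (Nat.dvd_of_mem_primeFactors hp)
      exact Int.natCast_dvd.1 ((hcon p hp' h7).2 z hz)
    exact Int.natAbs_dvd_natAbs.1 h6
  have h2 : (∀ p : ℕ, p.Prime → (p : ℤ) ∣ 2 * k → p % 3 ≠ 1 →
      ∃ v, H.IsHodge v ∧ AdmissibleAt p (H.disc v)) → HilbertSquare H := by
    intro hloc
    rw [H.rank_eq] at hr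
    obtain ⟨w', n, hw', hwn⟩ := Pool.Agent.K9h95.RE.value_rank_three hH hr hv hk hd hu hw hG0 hG'
      fun p hp hp3 hpd => hloc p hp hpd hp3
    exact Pool.Agent.K9h36.RT.sat_of_value hH hw' hwn
  have h3 : H.HasK3 → ∀ p : ℕ, p.Prime → ∃ v, H.IsHodge v ∧ AdmissibleAt p (H.disc v) :=
    fun h => ((Pool.Agent.N801.CF.hasK3_iff hH).1 h).2
  refine ⟨⟨fun h => hK.2 (h1 h), fun h => h2 fun p hp _ _ => h3 (hK.1 h) p hp⟩,
    ⟨fun h p hp _ _ => h3 (h1 h) p hp, h2⟩, ?_⟩
  intro hk3
  refine h2 fun p hp hpd hp3 => ?_
  have hp2 : p = 2 := by
    rcases (Nat.prime_iff_prime_int.1 hp).dvd_or_dvd hpd with h | h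
    · have h' : p ∣ 2 := by exact_mod_cast h
      exact (Nat.prime_dvd_prime_iff_eq hp Nat.prime_two).1 h'
    · exact absurd (hk3 p hp h) hp3
  subst hp2
  refine ⟨v, hv, fun _ h4 => ?_, fun h => absurd h (by norm_num), fun h => absurd rfl h⟩
  rw [hd] at h4
  have h5 : (2 : ℤ) ∣ k ^ 2 := by omega
  have h6 : ((2 : ℕ) : ℤ) ∣ k := by
    push_cast
    exact Int.prime_two.dvd_of_dvd_pow h5
  have := hk3 2 Nat.prime_two h6
  norm_num at this

end Pool.Agent.Results.MP_4d0966_ag.EquivalentRankThreeSharp
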