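import Pool.Agent.K9h38.CF.Planes

/-!
# The conjecture of Galkin and Shinder for cubic fourfolds with a plane

Let `X` be a smooth cubic fourfold which contains a plane, or more generally a cubic fourfold in one of
the divisors `C_8` (planes, quadric surface fibrations) and `C_18` (fibrations in sextic del Pezzo
surfaces), without any assumption on the rank of the group of Hodge classes. We prove:

1. The variety of lines `F(X)` is birational to `S^[2]` for a K3 surface `S` if and only if `X` has an
   associated K3 surface, if and only if some Hodge class has a discriminant which is not divisible by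
   `4` (in `C_8`), respectively which is not divisible by `3` or is `6` modulo `18` (in `C_18`).
   So for these `X` the conjecture of Galkin and Shinder and the conjecture of Hassett and
   Kuznetsov are the same. (For the very general `X` in `C_74` the two conditions are different.)
2. If `P` is a plane in `X` and `T` a Hodge class such that `T.(h - P)` is odd, then `X` is rational
   (Hassett) and `F(X)` is birational to `S^[2]` for a K3 surface `S`. So the conjecture of
   Galkin and Shinder holds for these `X`; they form countably many families of codimension one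
   in `C_8`, whose union is dense. In particular it holds for all `X` with `N` planes, `N ≥ 12` and `N`
   not one of `13`, `15`, `17`, `19`, `21`, `27`.

The known facts which are used are collected in `H4.IsCohomology`; the theorem of Addington which
translates `F(X) ~ S^[2]` is used in the definition `HilbertSquare`.

Idea of the proof. Let `f` be one half of the discriminant, a quadratic form on the Hodge classes, with
the polar form `b`. One has to find a class `v` with `f v = j² + j + 1`. Let `f v₁ = k²`, here `k = 2` or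
`k = 3`. With `v = x v₁ + u` and `j = k x - r` this becomes
`x (b v₁ u + k (2 r - 1)) = r² - r + 1 - f u`. In all cases one can choose `r` such that the first factor
is one of the numbers `± 1, ± 2, ± 3, ± 4, ± 6, 9, 18` and divides the right hand side, after a
multiplication of `u` by `2` if necessary.
-/

set_option autoImplicit false

namespace Pool.Agent.Results.MP_4d0966_ag.PlanesAndDelPezzo

open Pool.Agent.Y95.Q

/-- `X` is in the Hassett divisor `C_d`: there is a Hodge class `v` such that `h` and `v` span a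
saturated group of discriminant `d`. -/
def InDivisor {X : CubicFourfold} (H : H4 X) (d : ℤ) : Prop :=
  ∃ v, H.IsHodge v ∧ H.Saturated v ∧ H.disc v = d

/-- `X` is in a Hassett divisor `C_d`, where `d = (2 n ^ 2 + 2 n + 2) / a ^ 2` with integers `a` and `n`.
By a theorem of Addington this means that the variety of lines `F(X)` is birational to the Hilbert
square `S^[2]` of some K3 surface `S`. -/
def HilbertSquare {X : CubicFourfold} (H : H4 X) : Prop :=
  ∃ d, (∃ a n : ℤ, a ^ 2 * d = 2 * n ^ 2 + 2 * n + 2) ∧ InDivisor H d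

/-- `X` is in a Hassett divisor `C_d` with an admissible `d`. By theorems of Hassett and of Addington
and Thomas this means that `X` has an associated K3 surface, in the sense of Hassett or of
Kuznetsov. -/
def AssociatedK3 {X : CubicFourfold} (H : H4 X) : Prop := ∃ d, Admissible d ∧ InDivisor H d

/-- **Cubic fourfolds in the divisors `C_8` and `C_18`**: the conditions of Galkin and Shinder and of
Hassett and Kuznetsov are equivalent; the conjecture of Galkin and Shinder for the rational cubic
fourfolds of Hassett. -/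
theorem result {X : CubicFourfold} {H : H4 X} (hH : H.IsCohomology) :
    (Nonempty X.Plane ∨ InDivisor H 8 ∨ InDivisor H 18 → (HilbertSquare H ↔ AssociatedK3 H)) ∧
    (Nonempty X.Plane ∨ InDivisor H 8 →
      (HilbertSquare H ↔ ∃ v, H.IsHodge v ∧ ¬ 4 ∣ H.disc v)) ∧
    (InDivisor H 18 →
      (HilbertSquare H ↔ ∃ v, H.IsHodge v ∧ (¬ 3 ∣ H.disc v ∨ H.disc v % 18 = 6))) ∧
    (∀ (P : X.Plane) (T : Fin 23 → ℤ), H.IsHodge T → Odd (H.ip T (H.h - H.cl P)) →
      X.IsRational ∧ HilbertSquare H) ∧
    (12 ≤ Nat.card X.Plane → Nat.card X.Plane ∉ ({13, 15, 17, 19, 21, 27} : Finset ℕ) →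
      X.IsRational ∧ HilbertSquare H) := by
  have hK : AssociatedK3 H ↔ H.HasK3 := by
    constructor
    · rintro ⟨d, hd, v, hv, hs, rfl⟩
      exact ⟨v, hv, hs, hd⟩
    · rintro ⟨v, hv, hs, hd⟩
      exact ⟨_, hd, v, hv, hs, rfl⟩
  have h1 : HilbertSquare H → H.HasK3 := by
    rintro ⟨d, ⟨a, n, h⟩, v, hv, hs, rfl⟩
    exact Pool.Agent.K9h38.CF.hasK3_of_addington hH hv hs h
  have hsat : (∃ (v : Fin 23 → ℤ) (n : ℤ), H.IsHodge v ∧ H.disc v = 2 * n ^ 2 + 2 * n + 2) →
      HilbertSquare H := by
    rintro ⟨v, n, hv, h⟩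
    exact Pool.Agent.K9h38.CF.sat_of_value hH hv h
  have hpl : ∀ P : X.Plane, H.IsHodge (H.cl P) ∧ H.disc (H.cl P) = 8 := by
    intro P
    obtain ⟨p1, p2, p3⟩ := (hH.cl_range (H.cl P)).1 ⟨P, rfl⟩
    refine ⟨p1, ?_⟩
    rw [H4.disc, hH.comm H.h, p2, p3]
    norm_num
  have hcl : Nonempty X.Plane ∨ InDivisor H 8 → ∃ P, H.IsHodge P ∧ H.disc P = 8 := by
    rintro (⟨⟨P⟩⟩ | ⟨v, hv, -, hd⟩)
    · exact ⟨_, hpl P⟩
    · exact ⟨v, hv, hd⟩
  -- the local conditions
  have hloc : ∀ p : ℕ, p.Prime → H.HasK3 → ∃ v, H.IsHodge v ∧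
      Pool.Agent.N801.CF.AdmissibleAt p (H.disc v) :=
    fun p hp h => ((Pool.Agent.N801.CF.hasK3_iff hH).1 h).2 p hp
  have a8 : Nonempty X.Plane ∨ InDivisor H 8 →
      (HilbertSquare H ↔ ∃ v, H.IsHodge v ∧ ¬ 4 ∣ H.disc v) := by
    intro h
    obtain ⟨P, hP, h8⟩ := hcl h
    constructor
    · intro hs
      obtain ⟨v, hv, h2⟩ := hloc 2 Nat.prime_two (h1 hs)
      exact ⟨v, hv, h2.1 rfl⟩
    · rintro ⟨v, hv, h4⟩
      exact hsat (Pool.Agent.K9h38.CF.value_eight hH hP h8 hv (Or.inl h4))
  have a18 : InDivisor H 18 →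
      (HilbertSquare H ↔ ∃ v, H.IsHodge v ∧ (¬ 3 ∣ H.disc v ∨ H.disc v % 18 = 6)) := by
    rintro ⟨P, hP, -, h18⟩
    constructor
    · intro hs
      obtain ⟨v, hv, h2⟩ := hloc 3 Nat.prime_three (h1 hs)
      exact ⟨v, hv, h2.2.1 rfl⟩
    · rintro ⟨v, hv, h3⟩
      exact hsat (Pool.Agent.K9h38.CF.value_eighteen hH hP h18 hv
        ⟨fun h => absurd h (by norm_num), fun _ => h3, fun _ h => absurd h (by norm_num)⟩)
  have hall : Nonempty X.Plane ∨ InDivisor H 8 ∨ InDivisor H 18 →
      (HilbertSquare H ↔ AssociatedK3 H) := by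
    intro h
    refine ⟨fun hs => hK.2 (h1 hs), fun hk => ?_⟩
    have hk' := hK.1 hk
    have h8 : Nonempty X.Plane ∨ InDivisor H 8 → HilbertSquare H := by
      intro h
      obtain ⟨v, hv, h2⟩ := hloc 2 Nat.prime_two hk'
      exact (a8 h).2 ⟨v, hv, h2.1 rfl⟩
    rcases h with h | h | h
    · exact h8 (Or.inl h)
    · exact h8 (Or.inr h)
    · obtain ⟨v, hv, h2⟩ := hloc 3 Nat.prime_three hk'
      exact (a18 h).2 ⟨v, hv, h2.2.1 rfl⟩
  refine ⟨hall, a8, a18, ?_, ?_⟩
  · intro P T hT hodd
    obtain ⟨p1, p8⟩ := hpl P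
    refine ⟨hH.hassett P T hT hodd, hsat (Pool.Agent.K9h38.CF.value_eight hH p1 p8 hT (Or.inr ?_))⟩
    obtain ⟨-, p2, -⟩ := (hH.cl_range (H.cl P)).1 ⟨P, rfl⟩
    have e1 : H.ip H.h (H.cl P) = 1 := (hH.comm _ _).trans p2
    have e2 : H.ip T (H.h - H.cl P) = H.ip H.h T - H.ip (H.cl P) T := by
      rw [H4.ip_sub_right, hH.comm T H.h, hH.comm T (H.cl P)]
    rw [e1]
    rw [e2] at hodd
    obtain ⟨m, hm⟩ := hodd
    exact ⟨2 * H.ip (H.cl P) T - H.ip H.h T + m, by linear_combination hm⟩
  · intro h12 hne
    obtain ⟨hr, hk⟩ := hH.final h12 hne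
    have hP : Nonempty X.Plane := by
      by_contra h
      rw [not_nonempty_iff] at h
      rw [Nat.card_of_isEmpty] at h12
      omega
    exact ⟨hr, (hall (Or.inl hP)).2 (hK.2 hk)⟩

end Pool.Agent.Results.MP_4d0966_ag.PlanesAndDelPezzo
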