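import Pool.Agent.K9h95.RT.Arith
import Pool.Agent.K9h38.CF.Main

/-!
# Cubic fourfolds of rank three: an obstruction to `F(X) ~ S^[2]`

Galkin and Shinder conjecture that a smooth cubic fourfold `X` is rational if and only if the variety of
lines `F(X)` is birational to `S^[2]` for a K3 surface `S`; Hassett and Kuznetsov conjecture that `X` is
rational if and only if `X` has an associated K3 surface. By Addington the first condition implies the
second, and they differ for a very general `X` in `C_74` (rank two). They are equivalent if the rank of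
the group `A(X)` of Hodge classes is at least five, or four with a class of discriminant `2 k²`.

Here it is proved that they differ for infinitely many lattices `A(X)` of rank three, with or without
classes of discriminant `2 k²`, so that the two conjectures contradict each other in infinitely many
loci of codimension two whose members satisfy all local conditions for `F(X) ~ S^[2]`.

Let `f(x, y)` be one half of the discriminant of `x α + y β`, where `h`, `α`, `β` generate `A(X)`. By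
Addington `F(X) ~ S^[2]` means `f(x, y) = n² + n + 1` for some integers. Let `s` be an odd number such that
`-3` is a square modulo `s`, and let `f = s g`, where `g` is of one of the following forms:

* `g = 4 k² x² + 3 s m² y²`, where `s = 3 mod 4`;
* `g = s k² x² + 3 m² y²`, where `s = 1 mod 12` and the square roots of `-3` modulo `s` have the Jacobi
  symbol `-1` (if `s` is a prime number: `-3` is not a fourth power modulo `s`), for instance `s = 13`;
* `g = a² x² + b x y + c y²` of discriminant `-3 s e²`, where `a` is coprime to `e` and has only prime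
  factors `2 mod 3`, and `s = 1 mod 4` and `(a / s) = -1`, or `s = 3 mod 4`, `4 ∣ e` and `(s / a) = -1`;
  for instance `a = 2`, `s = 5 mod 8`, `16 c = b² + 3 s e²`, `e` odd.

Then `f(x, y) = n² + n + 1` has no solutions, although it has solutions modulo each number. Proof: in the
first case it gives `3 (2 s m y - 1) (2 s m y + 1) = w² - s z²` with `y` odd. The two
factors on the left side are coprime, so that the prime numbers modulo which `s` is not a square have
even exponents in `u = |2 s m y| + 1`, and the Jacobi symbol `(s / u)` is `1`; but `u = 1 + 2 s` modulo `4 s`,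
and `(s / u) = -1` by quadratic reciprocity. The third case is similar, with
`3 (s e y - a) (s e y + a) = (a w)² - s z²`. In the second case
`(w - 2 s k x) (w + 2 s k x) = 3 (s (2 m y)² - 1)`, so that all divisors `v` of the left side have
`(v / s) = 1`, but `v = w - 2 s k x` is a square root of `-3` modulo `s`. (These are spinor
exceptions of the ternary forms `4 f - w²`.)
-/

set_option autoImplicit false

namespace Pool.Agent.Results.MP_4d0966_ag.RankThreeFails

open Pool.Agent.Y95.Q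

/-- `X` is in the Hassett divisor `C_d`: there is a Hodge class `v` such that `h` and `v` span a
saturated group of discriminant `d`. -/
def InDivisor {X : CubicFourfold} (H : H4 X) (d : ℤ) : Prop :=
  ∃ v, H.IsHodge v ∧ H.Saturated v ∧ H.disc v = d

/-- `X` is in a Hassett divisor `C_d`, where `d = (2 n ^ 2 + 2 n + 2) / a ^ 2` with integers `a` and `n`.
By a theorem of Addington this means that the variety of lines `F(X)` is birational to the Hilbert
square `S^[2]` of some K3 surface `S`. -/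
def HilbertSquare {X : CubicFourfold} (H : H4 X) : Prop :=
  ∃ d, (∃ a n : ℤ, a ^ 2 * d = 2 * n ^ 2 + 2 * n + 2) ∧ InDivisor H d

/-- `X` is in a Hassett divisor `C_d` with an admissible `d`. By theorems of Hassett and of Addington
and Thomas this means that `X` has an associated K3 surface, in the sense of Hassett or of
Kuznetsov. -/
def AssociatedK3 {X : CubicFourfold} (H : H4 X) : Prop := ∃ d, Admissible d ∧ InDivisor H d

/-- The number `s` is odd, and `-3` is a square modulo `s`. -/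
def Norm (s : ℕ) : Prop := s % 2 = 1 ∧ ∃ t : ℤ, (s : ℤ) ∣ t ^ 2 + 3

/-- `f = s (4 k² x² + 3 s m² y²)` with `s = 3 mod 4`, coprime `k` and `m`, and `m` odd; `k` is not
divisible by `3` if `s` is. -/
def TypeA (f : ℤ → ℤ → ℤ) : Prop :=
  ∃ (s : ℕ) (k m : ℤ), Norm s ∧ s % 4 = 3 ∧ k ≠ 0 ∧ m % 2 = 1 ∧ IsCoprime k m ∧
    (3 ∣ s → ¬ 3 ∣ k) ∧ ∀ x y, f x y = s * (4 * k ^ 2 * x ^ 2 + 3 * s * m ^ 2 * y ^ 2)

/-- `f = s (s k² x² + 3 m² y²)` with `s = 1 mod 12` and coprime `k` and `m`, where the square roots of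
`-3` modulo `s` have the Jacobi symbol `-1`. -/
def TypeB (f : ℤ → ℤ → ℤ) : Prop :=
  ∃ (s : ℕ) (k m : ℤ), Norm s ∧ s % 12 = 1 ∧ k ≠ 0 ∧ m ≠ 0 ∧ IsCoprime k m ∧
    (∀ t : ℤ, (s : ℤ) ∣ t ^ 2 + 3 → jacobiSym t s = -1) ∧
    ∀ x y, f x y = s * (s * k ^ 2 * x ^ 2 + 3 * m ^ 2 * y ^ 2)

/-- `f = s (a² x² + b x y + c y²)` with `4 a² c = b² + 3 s e²`, where `a` is coprime to `e ≠ 0` and
its prime factors are congruent to `2` modulo `3`, and `s = 1 mod 4` and `(a / s) = -1`, or `s = 3 mod 4`,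
`4 ∣ e` and `(s / a) = -1` (Jacobi symbols). -/
def TypeC (f : ℤ → ℤ → ℤ) : Prop :=
  ∃ (s a : ℕ) (b c e : ℤ), Norm s ∧ a ≠ 0 ∧ e ≠ 0 ∧ (∀ p : ℕ, p.Prime → p ∣ a → p % 3 = 2) ∧
    IsCoprime (a : ℤ) e ∧ 4 * (a : ℤ) ^ 2 * c = b ^ 2 + 3 * s * e ^ 2 ∧
    ((s % 4 = 1 ∧ jacobiSym (a : ℤ) s = -1) ∨
      (s % 4 = 3 ∧ 4 ∣ e ∧ jacobiSym (s : ℤ) a = -1)) ∧
    ∀ x y, f x y = s * ((a : ℤ) ^ 2 * x ^ 2 + b * x * y + c * y ^ 2)

theorem no_value {f : ℤ → ℤ → ℤ} (hf : TypeA f ∨ TypeB f ∨ TypeC f) (x y n : ℤ) :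
    f x y ≠ n ^ 2 + n + 1 := by
  rcases hf with ⟨s, k, m, h1, h2, -, -, -, -, h3⟩ | ⟨s, k, m, h1, h2, -, -, -, h4, h3⟩ |
    ⟨s, a, b, c, e, h1, h2, -, h3, h4, h5, h6, h7⟩
  · intro h
    refine Pool.Agent.K9h95.RT.no_valueA h2 h1.2 (k * x) (m * y) n ?_
    rw [← h, h3]
    ring
  · intro h
    refine Pool.Agent.K9h95.RT.no_valueB h2 h4 (k * x) (m * y) n ?_
    rw [← h, h3]
    ring
  · rw [h7]
    exact Pool.Agent.K9h95.RT.no_valueG h1.1 h1.2 h2 h3 h4 h5 h6 x y n

theorem local_values {f : ℤ → ℤ → ℤ} (hf : TypeA f ∨ TypeB f ∨ TypeC f) :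
    0 < f 1 0 ∧ ∀ p : ℕ, p.Prime → ∃ x y : ℤ, Pool.Agent.N801.CF.AdmissibleAt p (2 * f x y) := by
  rcases hf with ⟨s, k, m, h1, h2, hk, hm, hkm, h3k, h3⟩ | ⟨s, k, m, h1, h2, hk, hm, hkm, h4, h3⟩ |
    ⟨s, a, b, c, e, h1, h2, h2', h3, h4, h5, h6, h7⟩
  · obtain ⟨h1', t, ht⟩ := h1
    refine ⟨?_, fun p hp => ?_⟩
    · rw [h3]
      have : 0 < (s : ℤ) := by omega
      have : 0 < k ^ 2 := by positivity
      nlinarith [mul_pos ‹0 < (s : ℤ)› this]
    · rcases Pool.Agent.K9h95.RT.admA h2 ht hkm hm (fun h => by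
        have := h3k h
        exact_mod_cast this) hp with h | h
      · refine ⟨1, 0, ?_⟩
        have e : 2 * f 1 0 = 2 * (4 * s * k ^ 2) := by rw [h3]; ring
        rw [e]
        exact h
      · refine ⟨0, 1, ?_⟩
        have e : 2 * f 0 1 = 2 * (3 * s ^ 2 * m ^ 2) := by rw [h3]; ring
        rw [e]
        exact h
  · obtain ⟨h1', t, ht⟩ := h1
    refine ⟨?_, fun p hp => ?_⟩
    · rw [h3]
      have : 0 < (s : ℤ) := by omega
      have : 0 < k ^ 2 := by positivity
      have := mul_pos ‹0 < (s : ℤ)› this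
      nlinarith [mul_pos ‹0 < (s : ℤ)› this]
    · rcases Pool.Agent.K9h95.RT.admB h2 ht hkm hp with h | h
      · refine ⟨1, 0, ?_⟩
        have e : 2 * f 1 0 = 2 * (s ^ 2 * k ^ 2) := by rw [h3]; ring
        rw [e]
        exact h
      · refine ⟨0, 1, ?_⟩
        have e : 2 * f 0 1 = 2 * (3 * s * m ^ 2) := by rw [h3]; ring
        rw [e]
        exact h
  · obtain ⟨h1', t, ht⟩ := h1
    refine ⟨?_, fun p hp => ?_⟩
    · rw [h7]
      have h8 : 0 < (s : ℤ) := by omega
      have h9 : 0 < (a : ℤ) ^ 2 := by positivity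
      have := mul_pos h8 h9
      linarith
    · obtain ⟨x, y, h⟩ := Pool.Agent.K9h95.RT.admG h1' ht h3 h4 h5 hp
      refine ⟨x, y, ?_⟩
      rw [h7]
      exact h

/-- **An obstruction to `F(X) ~ S^[2]` for cubic fourfolds of rank three with an associated K3
surface.** -/
theorem result {X : CubicFourfold} {H : H4 X} (hH : H.IsCohomology) {f : ℤ → ℤ → ℤ}
    (hf : TypeA f ∨ TypeB f ∨ TypeC f) :
    ((∀ v, H.IsHodge v → ¬ 4 ∣ H.disc v → ∃ x y, H.disc v = 2 * f x y) → ¬ HilbertSquare H) ∧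
    ((∃ α β, H.IsHodge α ∧ H.IsHodge β ∧
      (∀ v, H.IsHodge v → ∃ x y z : ℤ, v = x • α + y • β + z • H.h) ∧
      ∀ x y : ℤ, H.disc (x • α + y • β) = 2 * f x y) → AssociatedK3 H ∧ ¬ HilbertSquare H) := by
  have h1 : (∀ v, H.IsHodge v → ¬ 4 ∣ H.disc v → ∃ x y, H.disc v = 2 * f x y) →
      ¬ HilbertSquare H := by
    rintro h ⟨d, ⟨a, n, han⟩, v, hv, -, rfl⟩
    have h2 : H.disc (a • v) = 2 * n ^ 2 + 2 * n + 2 := by
      rw [Pool.Agent.N801.CF.disc_smul, han]
    obtain ⟨k, hk⟩ := Pool.Agent.K9h95.RT.odd_succ n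
    obtain ⟨x, y, hxy⟩ := h _ (H.isHodge_smul a hv) (by
      rw [h2]
      have : 2 * n ^ 2 + 2 * n + 2 = 2 * (n * (n + 1)) + 2 := by ring
      omega)
    refine no_value hf x y n ?_
    linarith
  refine ⟨h1, ?_⟩
  rintro ⟨α, β, hα, hβ, hgen, hdisc⟩
  obtain ⟨hpos, hloc⟩ := local_values hf
  have hxy : ∀ x y : ℤ, H.IsHodge (x • α + y • β) := fun x y =>
    H.isHodge_add (H.isHodge_smul _ hα) (H.isHodge_smul _ hβ)
  refine ⟨?_, h1 fun v hv _ => ?_⟩
  · obtain ⟨v, hv, hs, hd⟩ : H.HasK3 := by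
      rw [Pool.Agent.N801.CF.hasK3_iff hH]
      refine ⟨Pool.Agent.N801.CF.two_le_rank hH (hxy 1 0) (by rw [hdisc]; linarith),
        fun p hp => ?_⟩
      obtain ⟨x, y, h⟩ := hloc p hp
      exact ⟨_, hxy x y, by rw [hdisc]; exact h⟩
    exact ⟨_, hd, v, hv, hs, rfl⟩
  · obtain ⟨x, y, z, rfl⟩ := hgen v hv
    refine ⟨x, y, ?_⟩
    rw [← hdisc]
    simp only [H4.disc, H4.ip_add_left, H4.ip_add_right, H4.ip_smul_left, H4.ip_smul_right,
      hH.h_self, hH.comm α H.h, hH.comm β H.h]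
    ring

end Pool.Agent.Results.MP_4d0966_ag.RankThreeFails
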